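import Pool.Agent.H815.QC.Stm

/-! R7 of the project QC (owner helper815): `std T` and `std (pp T)`. -/

set_option autoImplicit false

namespace Pool.Agent.H357.QC

open Pool.Agent.Y110.FJ Pool.Agent.T2H65.GP Pool.Agent.H815.QC

section

variable {V : Type} (Λ : SimpleGraph V) (B : V → Type) [∀ v, Group (B v)]

/-- the retraction onto the empty standard subgroup is trivial -/
theorem er_empty {T : V → Prop} (h : ∀ v, ¬ T v) (x : GrP Λ B) : er Λ B T x = 1 := by
  have h1 : er Λ B T = 1 := by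
    apply ghom_ext
    intro v b
    rw [er_of' Λ B (h v)]
    rfl
  rw [h1]
  rfl

theorem disj_pp {T : V → Prop} (v : V) : ¬ (T v ∧ pp Λ T v) := by
  rintro ⟨h1, h2⟩
  exact Λ.irrefl (h2 v h1)

/-- `std T` and `std (pp T)` have trivial intersection -/
theorem std_inter {T : V → Prop} {x : GrP Λ B} (h1 : x ∈ std Λ B T) (h2 : x ∈ std Λ B (pp Λ T)) : x = 1 := by
  rw [mem_std] at h1 h2
  have h3 := er_er Λ B T (pp Λ T) x
  rw [h2, h1, er_empty Λ B (fun v => disj_pp Λ v)] at h3
  exact h3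

/-- `std T` and `std (pp T)` commute -/
theorem std_pp_comm {T : V → Prop} {x y : GrP Λ B} (hx : x ∈ std Λ B T) (hy : y ∈ std Λ B (pp Λ T)) :
    x * y = y * x :=
  std_comm Λ B (fun t _ ht hs => (hs t ht).symm) hx hy

/-- the elements which normalize `std T` -/
def nrm (T : V → Prop) : Subgroup (GrP Λ B) where
  carrier := {p | ∀ x, x ∈ std Λ B T ↔ p⁻¹ * x * p ∈ std Λ B T}
  one_mem' := by
    intro x
    rw [inv_one, one_mul, mul_one]
  mul_mem' := by
    intro p q hp hq x
    rw [hp x, hq (p⁻¹ * x * p)]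
    have : q⁻¹ * (p⁻¹ * x * p) * q = (p * q)⁻¹ * x * (p * q) := by group
    rw [this]
  inv_mem' := by
    intro p hp x
    rw [hp ((p⁻¹)⁻¹ * x * p⁻¹)]
    have : p⁻¹ * ((p⁻¹)⁻¹ * x * p⁻¹) * p = x := by group
    rw [this]

theorem std_le_nrm (T : V → Prop) : std Λ B (fun v => T v ∨ pp Λ T v) ≤ nrm Λ B T := by
  refine std_le Λ B ?_
  intro v hv p hp
  show ∀ x, x ∈ std Λ B T ↔ p⁻¹ * x * p ∈ std Λ B T
  intro x
  rcases hv with hv | hv
  · have h1 : p ∈ std Λ B T := vg_le_std Λ B hv hp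
    constructor
    · intro hx
      exact mul_mem (mul_mem (inv_mem h1) hx) h1
    · intro hx
      have h2 : x = p * (p⁻¹ * x * p) * p⁻¹ := by group
      rw [h2]
      exact mul_mem (mul_mem h1 hx) (inv_mem h1)
  · have h1 : p ∈ std Λ B (pp Λ T) := vg_le_std Λ B hv hp
    constructor
    · intro hx
      have h2 := std_pp_comm Λ B hx h1
      have h3 : p⁻¹ * x * p = x := by rw [mul_assoc, h2]; group
      rw [h3]
      exact hx
    · intro hx
      have h2 := std_pp_comm Λ B hx h1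
      have h4 : x = p * (p⁻¹ * x * p) * p⁻¹ := by group
      have h3 : x = p⁻¹ * x * p := by
        calc x = p * (p⁻¹ * x * p) * p⁻¹ := h4
          _ = (p⁻¹ * x * p) * p * p⁻¹ := by rw [h2]
          _ = p⁻¹ * x * p := by group
      rw [h3]
      exact hx

end

/-- R7. `std T` and `std (pp T)` commute and have trivial intersection, and `std (T ∪ pp T)`
normalizes `std T`. -/
theorem R7_proof : Pool.Agent.H815.QC.S_R7 := by
  intro V _ Λ N _ β hβ b T
  refine ⟨?_, ?_, ?_⟩
  · intro n hn hn'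
    have h1 := mem_pb.1 hn
    have h2 := mem_pb.1 hn'
    have h3 := std_inter Λ (B2 V) h1 h2
    have h4 : β n = b * (b⁻¹ * β n * b) * b⁻¹ := by group
    have h5 : β n = 1 := by
      rw [h4, h3]
      group
    exact hβ (h5.trans (map_one β).symm)
  · intro x hx y hy
    have h1 := mem_pb.1 hx
    have h2 := mem_pb.1 hy
    have h3 := std_pp_comm Λ (B2 V) h1 h2
    have h4 : β x * β y = b * ((b⁻¹ * β x * b) * (b⁻¹ * β y * b)) * b⁻¹ := by group
    have h5 : β y * β x = b * ((b⁻¹ * β y * b) * (b⁻¹ * β x * b)) * b⁻¹ := by group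
    apply hβ
    rw [map_mul, map_mul, h4, h5, h3]
  · intro p hp
    have h1 := std_le_nrm Λ (B2 V) T hp
    ext n
    show n ∈ pb Λ (B2 V) β (b * p) T ↔ n ∈ pb Λ (B2 V) β b T
    rw [mem_pb, mem_pb]
    have h2 : (b * p)⁻¹ * β n * (b * p) = p⁻¹ * (b⁻¹ * β n * b) * p := by group
    rw [h2]
    exact (h1 (b⁻¹ * β n * b)).symm

end Pool.Agent.H357.QC
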